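import Pool.Agent.Helper41.LD3.Fr
import Pool.Agent.Helper41.LD2.Defs

/-!
# Project LD4: nearly optimal discrepancy for all bases with a rational power and all Diophantine bases at once, definitions
-/

set_option autoImplicit false

namespace Pool.Agent.Helper41.LD4

open Set MeasureTheory
open Pool.Agent.Helper41.LD (av var haar Dioph)
open Pool.Agent.Helper41.LD2 (EqA)

/-! ## One functional: a sequence of functions `G j` of the point -/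

/-- average of `G j` -/
noncomputable def A (G : ℕ → ℝ → ℝ) (j : ℕ) (a ℓ : ℝ) : ℝ := av (G j) a ℓ

/-- the martingale -/
noncomputable def M (G : ℕ → ℝ → ℝ) (a ℓ : ℝ) : ℝ := ∑' j, A G j a ℓ

/-- the pending variance -/
noncomputable def W (G : ℕ → ℝ → ℝ) (n r : ℕ) (a ℓ : ℝ) : ℝ := r * ∑ j ∈ Finset.Ico (n - r) n, var (G j) a ℓ

/-- the potential of one functional -/
noncomputable def Pot (G : ℕ → ℝ → ℝ) (n r : ℕ) (lam a ℓ : ℝ) : ℝ :=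
  Real.cosh (lam * M G a ℓ) * (1 + 4 * lam ^ 2 * W G n r a ℓ)

/-- constant on the window before the time `n - r` -/
def NB (G : ℕ → ℝ → ℝ) (n r : ℕ) (a ℓ : ℝ) : Prop := ∀ j : ℕ, j + r < n → ∀ x ∈ Icc a (a + ℓ), G j x = G j a

/-- `[a, a + ℓ]` is a window of time `n` -/
structure Wd (G : ℕ → ℝ → ℝ) (β w : ℝ) (n : ℕ) (a ℓ : ℝ) : Prop where
  pos : 0 < ℓ
  hβ : 1 < β
  w0 : 0 ≤ w
  meas : ∀ j, Measurable (G j)
  bdd : ∀ j x, |G j x| ≤ 1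
  tail : ∀ j : ℕ, n ≤ j → |∫ x in a..(a + ℓ), G j x| ≤ w * β⁻¹ ^ (j - n) * ℓ
  cov : ∀ j₁ j₂ : ℕ, n ≤ j₁ → j₁ ≤ j₂ → |∫ x in a..(a + ℓ), G j₁ x * G j₂ x| ≤ w * β⁻¹ ^ (j₂ - j₁) * ℓ

/-! ## Test functions on the circle -/

/-- a step function of period 1 and mean 0, at most `m` pieces per period, `|∫ f| ≤ w`, constant on the cells of the grid `1 / N₀` -/
structure Fn (N₀ m : ℕ) (w : ℝ) (f : ℝ → ℝ) : Prop where
  meas : Measurable f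
  bdd : ∀ x, |f x| ≤ 1
  per : Function.Periodic f 1
  prim : ∀ p q : ℝ, |∫ t in p..q, f t| ≤ w
  equi : ∀ (α : ℝ) (Q₀ : ℕ) (ε : ℝ), EqA α Q₀ ε → 0 ≤ ε → ∀ Q : ℕ, Q₀ ≤ Q → ∀ x : ℝ, |∑ k ∈ Finset.range Q, f (k * α + x)| ≤ m * ε * Q
  piece : ∀ (g : ℝ → ℝ) (η : ℝ), Measurable g → (∀ x, |g x| ≤ 1) → (∀ p q : ℝ, |∫ t in p..q, g t| ≤ η) → ∀ p q : ℝ, p ≤ q →
    |∫ t in p..q, f t * g t| ≤ m * η * (q - p + 2)
  grid : ∀ s t : ℝ, ⌊(N₀ : ℝ) * s⌋ = ⌊(N₀ : ℝ) * t⌋ → f s = f t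

/-- a system of test functions -/
structure Sys {ι : Type} (I : Finset ι) (f : ι → ℝ → ℝ) (v : ι → ℝ) (lev : ι → ℕ) (K N₀ m : ℕ) : Prop where
  m1 : 1 ≤ m
  N1 : 1 ≤ N₀
  N2 : N₀ ≤ m * 2 ^ K
  card : I.card ≤ m * 2 ^ K
  fn : ∀ q ∈ I, Fn N₀ m (m * v q) (f q)
  v_lo : ∀ q ∈ I, 1 / (m * 2 ^ K) ≤ v q
  v_hi : ∀ q ∈ I, v q ≤ 1
  v_sum : ∑ q ∈ I, v q ≤ m * K
  orth : ∀ q ∈ I, ∀ q' ∈ I, q ≠ q' → ∫ t in (0 : ℝ)..1, f q t * f q' t = 0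
  norm : ∀ q ∈ I, ∫ t in (0 : ℝ)..1, f q t * f q t = v q
  lev_lt : ∀ q ∈ I, lev q < m * K
  lev_sum : ∀ (lv : ℕ) (x : ℝ), ∑ q ∈ I with lev q = lv, |f q x| ≤ 1

/-- the Helmert functions of a digit -/
noncomputable def psi (r a : ℕ) : ℝ := if r = 0 then 1 else if a < r then 1 / r else if a = r then -1 else 0

/-- the test function `q = (r, t, k, i)` in the base `b`: `psi r` of the first digit of `x`, times (if `t = 1`) the Haar function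
`(k, i)` of `b x` -/
noncomputable def fb (b : ℕ) (q : ℕ × ℕ × ℕ × ℕ) (x : ℝ) : ℝ :=
  psi q.1 ⌊(b : ℝ) * Int.fract x⌋₊ * (if q.2.1 = 0 then 1 else haar q.2.2.1 q.2.2.2 (b * x))

/-- the index set -/
def Ib (b K : ℕ) : Finset (ℕ × ℕ × ℕ × ℕ) :=
  (Finset.range b ×ˢ Finset.range 2 ×ˢ Finset.range K ×ˢ Finset.range (2 ^ K)).filter fun q =>
    1 ≤ q.1 ∧ ((q.2.1 = 0 ∧ q.2.2.1 = 0 ∧ q.2.2.2 = 0) ∨ (q.2.1 = 1 ∧ q.2.2.2 < 2 ^ q.2.2.1))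

/-- the system of the type `b`: `b = 0` the dyadic Haar functions (`q = (0, 0, k, i)`), `b ≥ 2` the functions `fb b q` -/
def sysI (b K : ℕ) : Finset (ℕ × ℕ × ℕ × ℕ) :=
  if b = 0 then ({0} ×ˢ {0} ×ˢ Finset.range K ×ˢ Finset.range (2 ^ K)).filter fun q => q.2.2.2 < 2 ^ q.2.2.1 else Ib b K

noncomputable def sysf (b : ℕ) (q : ℕ × ℕ × ℕ × ℕ) : ℝ → ℝ := if b = 0 then haar q.2.2.1 q.2.2.2 else fb b q

noncomputable def sysv (b : ℕ) (q : ℕ × ℕ × ℕ × ℕ) : ℝ :=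
  if b = 0 then (1 / 2) ^ q.2.2.1 else (1 + 1 / q.1) / b * (1 / 2) ^ q.2.2.1

def syslev (b K : ℕ) (q : ℕ × ℕ × ℕ × ℕ) : ℕ := if b = 0 then q.2.2.1 else (q.1 * 2 + q.2.1) * K + q.2.2.1

def sysm (b : ℕ) : ℕ := if b = 0 then 4 else 4 * b

def sysN (b K : ℕ) : ℕ := if b = 0 then 2 ^ K else b * 2 ^ K

/-! ## Generators with a rational power -/

/-- some power is rational -/
def RatPow (t : ℝ) : Prop := ∃ r : ℕ, 1 ≤ r ∧ ∃ ρ : ℚ, t ^ r = ρ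

/-- `t ^ r = p / q` in lowest terms, `p > q`, with the least exponent `r ≥ 1` for which a power of `t` is rational -/
structure RatGen (t : ℝ) (r p q : ℕ) : Prop where
  hr : 1 ≤ r
  hq : 1 ≤ q
  hpq : q < p
  cop : Nat.Coprime p q
  pow : t ^ r = p / q
  irr : ∀ i : ℕ, ¬ r ∣ i → Irrational (t ^ i)

/-- the type of a generator: `(0, 0, 0)`: Diophantine; `(r, p, q)`: `t ^ r = p / q` -/
def Ty (κ : ℕ) (t : ℝ) (ty : ℕ × ℕ × ℕ) : Prop := 1 < t ∧ ((ty = (0, 0, 0) ∧ Dioph t κ) ∨ RatGen t ty.1 ty.2.1 ty.2.2)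

/-- constant integer parts on the grid `1 / N₀` -/
def NBg (U : ℕ → ℝ → ℝ) (n r N₀ : ℕ) (a ℓ : ℝ) : Prop :=
  ∀ j : ℕ, j + r < n → ∀ x ∈ Icc a (a + ℓ), ⌊(N₀ : ℝ) * U j x⌋ = ⌊(N₀ : ℝ) * U j a⌋

end Pool.Agent.Helper41.LD4
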