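import Pool.Agent.Helper41.LD4.Defs
import Pool.Agent.Helper41.LD3.Cst
import Pool.Agent.Helper41.LD3.Disc
import Pool.Agent.Helper31.LD3.EV
import Pool.Agent.Helper36.LD3.EV

/-!
# Project LD4: constants of a stage
-/

set_option autoImplicit false

namespace Pool.Agent.Helper41.LD4

open Set MeasureTheory Filter Topology
open Pool.Agent.Helper41.LD (av var haar DiscLe Dioph Kk)
open Pool.Agent.Helper41.LD2 (EqA)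
open Pool.Agent.Helper41.LD3 (Cst exists_cst fin_max Us tm fr lamG)

/-- the constants of a mixed family -/
structure Cst4 (τ : ℕ → ℝ) (ty : ℕ → ℕ × ℕ × ℕ) (g Q R CF DF Cb m Cq G : ℕ) : Prop where
  base : Cst τ g Q R CF DF Cb G
  m1 : 1 ≤ m
  hm : ∀ h < g, sysm (ty h).2.1 ≤ m
  hty : ∀ h < g, ((ty h).1 = 0 ∧ (ty h).2.1 = 0) ∨ RatGen (τ h) (ty h).1 (ty h).2.1 (ty h).2.2
  hQr : ∀ h < g, (ty h).1 ≠ 0 → (ty h).1 ∣ Q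
  hCq : ∀ h < g, (ty h).1 ≠ 0 → ((ty h).2.2 : ℝ) ≤ (((ty h).2.1 : ℝ) / (ty h).2.2) ^ Cq
  hG4 : g * Q * Cb ^ 2 * CF * (9 * m ^ 5) ≤ G

/-- the requirements on one level -/
structure Big4 (κ : ℕ) (τ : ℕ → ℝ) (ty : ℕ → ℕ × ℕ × ℕ) (g Q R DF Cb m Cq G K : ℕ) : Prop where
  hK2 : 2 ≤ K
  hCbK : Cb * (3 * m ^ 2) ≤ K
  hRD : DF * (3 * (R * K)) < K ^ (2 * κ + 1)
  hR2 : (R * K) ^ 2 ≤ K ^ (2 * κ + 1)
  hbig : 8192 * G * K * K ^ (2 * κ + 1) ≤ 2 ^ K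
  hB : 12 * K ≤ K ^ (2 * κ + 1)
  hTT : ∃ (Q₀ : ℕ) (ε : ℝ), 0 ≤ ε ∧ ε ≤ (1 / 2) ^ (12 * K) ∧ ∀ h < g, ∀ e < Q, ∀ ℓ : ℝ, 0 < ℓ → ℓ ≤ 1 → ∃ u : ℕ, u % Q = e ∧
    ((Q₀ : ℝ) + 1) * 2 ^ ((24 + 12 * Cq) * K) ≤ τ h ^ u * ℓ ∧ τ h ^ u * (ℓ / 2 ^ (K ^ (2 * κ + 1))) ≤ 2 * (1 / 2) ^ (12 * K) ∧
        ∀ h' < g, ∀ u' : ℕ, ¬ (h' = h ∧ u' ≡ u [MOD (ty h).1]) → (1 / 2 : ℝ) ^ (12 * K) < τ h' ^ u' / τ h ^ u → τ h' ^ u' / τ h ^ u < 2 ^ (12 * K) →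
          (τ h' ^ u' ≤ τ h ^ u ∧ EqA (τ h ^ u / τ h' ^ u') Q₀ ε) ∨ (τ h ^ u ≤ τ h' ^ u' ∧ EqA (τ h' ^ u' / τ h ^ u) Q₀ ε)

theorem sysm_pos (b : ℕ) : 1 ≤ sysm b := by
  unfold sysm
  split_ifs with h
  · norm_num
  · omega

theorem exists_cst4 {κ : ℕ} {τ : ℕ → ℝ} {ty : ℕ → ℕ × ℕ × ℕ} {g Q : ℕ} (hg : 1 ≤ g) (hQ : 1 ≤ Q) (hτ : ∀ h < g, Ty κ (τ h) (ty h))
    (hQr : ∀ h < g, (ty h).1 ≠ 0 → (ty h).1 ∣ Q) :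
    ∃ R CF DF Cb m Cq G : ℕ, Cst4 τ ty g Q R CF DF Cb m Cq G := by
  obtain ⟨R, CF, DF, Cb, G, hG1, H⟩ := exists_cst hg hQ (fun h hh => (hτ h hh).1)
  obtain ⟨m, hm1, hm⟩ := fin_max (P := fun h n => sysm (ty h).2.1 ≤ n) (fun h n n' hn hP => hP.trans hn) g (fun h _ => ⟨_, le_rfl⟩)
  have hty : ∀ h < g, ((ty h).1 = 0 ∧ (ty h).2.1 = 0) ∨ RatGen (τ h) (ty h).1 (ty h).2.1 (ty h).2.2 := by
    intro h hh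
    rcases (hτ h hh).2 with h1 | h1
    · left
      rw [h1.1]
      exact ⟨rfl, rfl⟩
    · exact Or.inr h1
  have hr : ∀ h < g, (ty h).1 ≠ 0 → 1 < ((ty h).2.1 : ℝ) / (ty h).2.2 := by
    intro h hh h0
    rcases hty h hh with h1 | h1
    · exact absurd h1.1 h0
    · have h2 : (0 : ℝ) < (ty h).2.2 := by exact_mod_cast h1.hq
      rw [one_lt_div h2]
      exact_mod_cast h1.hpq
  obtain ⟨Cq, -, hCq⟩ := fin_max (P := fun h n => 1 < ((ty h).2.1 : ℝ) / (ty h).2.2 → ((ty h).2.2 : ℝ) ≤ (((ty h).2.1 : ℝ) / (ty h).2.2) ^ n)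
    (fun h n n' hn hP hb => (hP hb).trans (pow_le_pow_right₀ hb.le hn)) g
    (fun h hh => by
      by_cases hb : 1 < ((ty h).2.1 : ℝ) / (ty h).2.2
      · obtain ⟨n, hn⟩ := pow_unbounded_of_one_lt ((ty h).2.2 : ℝ) hb
        exact ⟨n, fun _ => hn.le⟩
      · exact ⟨0, fun h => absurd h hb⟩)
  have hG' : G ≤ G * (9 * m ^ 5) := Nat.le_mul_of_pos_right _ (Nat.mul_pos (by norm_num) (Nat.pow_pos hm1))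
  refine ⟨R, CF, DF, Cb, m, Cq, G * (9 * m ^ 5), ⟨⟨H.hg, H.hQ, H.hτ, H.hR1, H.hR, H.hCF1, H.hCF, H.hDF1, H.hDF, H.hCb1, H.hCb, H.hG.trans hG'⟩,
    hm1, hm, hty, hQr, fun h hh h0 => hCq h hh (hr h hh h0), Nat.mul_le_mul_right _ H.hG⟩⟩

section

variable {κ : ℕ} {τ : ℕ → ℝ} {ty : ℕ → ℕ × ℕ × ℕ} {g Q R CF DF Cb m Cq G K : ℕ}

theorem Cst4.G_ge (H : Cst4 τ ty g Q R CF DF Cb m Cq G) : g * Q ≤ G ∧ CF ≤ G ∧ Cb ≤ G ∧ 1 ≤ G ∧ g * Q * (9 * m ^ 5) ≤ G := by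
  obtain ⟨h1, h2, h3, h4⟩ := H.base.G_ge
  refine ⟨h1, h2, h3, h4, le_trans ?_ H.hG4⟩
  refine Nat.mul_le_mul_right _ ?_
  have h6 : 1 ≤ Cb ^ 2 := Nat.pow_pos H.base.hCb1
  have h8 : g * Q ≤ g * Q * Cb ^ 2 := Nat.le_mul_of_pos_right _ h6
  have h9 : g * Q * Cb ^ 2 ≤ g * Q * Cb ^ 2 * CF := Nat.le_mul_of_pos_right _ H.base.hCF1
  exact h8.trans h9

theorem Big4.Lam (B : Big4 κ τ ty g Q R DF Cb m Cq G K) : 1 ≤ K ^ (2 * κ + 1) ∧ R * K ≤ K ^ (2 * κ + 1) ∧ K ≤ K ^ (2 * κ + 1) := by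
  have h2 := B.hK2
  have h3 := B.hR2
  have h4 : 1 ≤ K ^ (2 * κ + 1) := Nat.one_le_pow _ _ (by omega)
  refine ⟨h4, ?_, Nat.le_self_pow (by omega) K⟩
  rcases Nat.eq_zero_or_pos (R * K) with h0 | h0
  · rw [h0]; exact Nat.zero_le _
  · exact (Nat.le_self_pow two_ne_zero _).trans h3

/-- the number of terms on a window is at most `4 ^ K` -/
theorem Big4.count (H : Cst4 τ ty g Q R CF DF Cb m Cq G) (B : Big4 κ τ ty g Q R DF Cb m Cq G K) {n l : ℕ} (hn : n ≤ 2 ^ (K + 1) * (G * K ^ (2 * κ + 1)))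
    (hl : l ≤ CF * K ^ (2 * κ + 1)) : n + l + R * K ≤ 2 ^ (2 * K) := by
  obtain ⟨hL1, hRL, hKL⟩ := B.Lam
  obtain ⟨hmG, hCFG, hCbG, hG1, -⟩ := H.G_ge
  have hbig := B.hbig
  have hK2 := B.hK2
  set Λ := K ^ (2 * κ + 1) with hΛ
  have h1 : 8192 * (G * Λ) ≤ 2 ^ K := by
    calc 8192 * (G * Λ) ≤ 8192 * (G * Λ) * K := Nat.le_mul_of_pos_right _ (by omega)
      _ = 8192 * G * K * Λ := by ring
      _ ≤ _ := hbig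
  have h2 : l ≤ G * Λ := hl.trans (Nat.mul_le_mul_right _ hCFG)
  have h3 : R * K ≤ G * Λ := hRL.trans (Nat.le_mul_of_pos_left _ hG1)
  have h4 : (2 : ℕ) ^ (2 * K) = 2 ^ K * 2 ^ K := by rw [two_mul, pow_add]
  have h5 : 2 ^ (K + 1) * (G * Λ) = 2 ^ K * (2 * (G * Λ)) := by rw [pow_succ]; ring
  have h6 : 1 ≤ 2 ^ K := Nat.one_le_two_pow
  have h7 : G * Λ ≤ 2 ^ K * (G * Λ) := Nat.le_mul_of_pos_left _ h6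
  have h8 : 2 ^ K * (8192 * (G * Λ)) ≤ 2 ^ K * 2 ^ K := Nat.mul_le_mul_left _ h1
  rw [h4]
  nlinarith

end

/-- the functionals of a family: class and test function -/
def PP (ty : ℕ → ℕ × ℕ × ℕ) (g Q K : ℕ) : Finset (Σ _ : ℕ, ℕ × ℕ × ℕ × ℕ) := (Finset.range (g * Q)).sigma fun s => sysI (ty (s / Q)).2.1 K

/-- the functional `p` of the family -/
noncomputable def GG (τ : ℕ → ℝ) (ty : ℕ → ℕ × ℕ × ℕ) (c : ℝ → ℝ) (Q : ℕ) (ℓst : ℝ) (p : Σ _ : ℕ, ℕ × ℕ × ℕ × ℕ) (j : ℕ) (x : ℝ) : ℝ :=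
  sysf (ty (p.1 / Q)).2.1 p.2 (Us τ c Q ℓst p.1 j x)

/-- a good window of the stage that starts at length `ℓst` -/
def GoodF4 (τ : ℕ → ℝ) (ty : ℕ → ℕ × ℕ × ℕ) (c : ℝ → ℝ) (g Q R G κ : ℕ) (ℓst : ℝ) (K : ℕ) (a ℓ : ℝ) : Prop :=
  (∀ s < g * Q, NBg (Us τ c Q ℓst s) (tm τ Q s ℓ - tm τ Q s ℓst) (R * K) (sysN (ty (s / Q)).2.1 K) a ℓ) ∧
  ∑ p ∈ PP ty g Q K, Pot (GG τ ty c Q ℓst p) (tm τ Q p.1 ℓ - tm τ Q p.1 ℓst) (R * K) (lamG G K ((K : ℝ) ^ (2 * κ + 1))) a ℓ ≤ 16 ^ K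

end Pool.Agent.Helper41.LD4
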