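import Pool.Agent.Helper41.LD4.Cst
import Pool.Agent.Helper83.LD4.GM
import Pool.Agent.Helper23.LD4.GE
import Pool.Agent.Helper30.LD4.EV
import Pool.Agent.Helper46.LD4.STA
import Pool.Agent.Helper52.LD4.STP
import Pool.Agent.Helper4.LD4.CLS
import Pool.Agent.Helper31.LD4.AS
import Pool.Agent.Helper41.LD3.Len2
import Pool.Agent.Helper44.LD3.LEN
import Pool.Agent.Helper89.LD.Dim

/-!
# Project LD4: the main theorem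
-/

set_option autoImplicit false

namespace Pool.Agent.Helper41.LD4

open Set MeasureTheory Filter Topology
open Pool.Agent.Helper41.LD (av var haar DiscLe Dioph Kk Kk_mono Kk_succ Kk_ge Kk_tendsto)
open Pool.Agent.Helper41.LD2 (EqA dimH_le_one)
open Pool.Agent.Helper41.LD3 (Cst Us tm fr lamG ll nu ll_pos ll_succ ll_anti ll_tendsto nu_mono nu_succ nu_ge mass_bound3 tm_block_le)
open Pool.Agent.Helper89.LD (dim_homog)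
open Pool.Agent.Helper83.LD4 (generators4)
open Pool.Agent.Helper23.LD4 (good_exponent4)
open Pool.Agent.Helper30.LD4 (ev_big4)
open Pool.Agent.Helper46.LD4 (stage_start4)
open Pool.Agent.Helper52.LD4 (stage_step4)
open Pool.Agent.Helper4.LD4 (stage_class4)
open Pool.Agent.Helper31.LD4 (asm4)

/-- the data of the family with the bases `θ 0, …, θ σ` -/
structure SD4 (κ : ℕ) (θ : ℕ → ℝ) (σ : ℕ) where
  g : ℕ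
  τ : ℕ → ℝ
  ty : ℕ → ℕ × ℕ × ℕ
  cl : ℕ → ℕ
  e : ℕ → ℕ
  Q : ℕ
  R : ℕ
  CF : ℕ
  DF : ℕ
  Cb : ℕ
  m : ℕ
  Cq : ℕ
  G : ℕ
  H : Cst4 τ ty g Q R CF DF Cb m Cq G
  big : ∀ᶠ K : ℕ in atTop, Big4 κ τ ty g Q R DF Cb m Cq G K
  hcl : ∀ i ≤ σ, cl i < g
  he : ∀ i ≤ σ, 1 ≤ e i
  heQ : ∀ i ≤ σ, e i ∣ Q
  hθ : ∀ i ≤ σ, θ i = τ (cl i) ^ e i

theorem exists_SD4 {κ : ℕ} (hκ : 1 ≤ κ) {θ : ℕ → ℝ} (hθ : ∀ i, 1 < θ i ∧ (Dioph (θ i) κ ∨ RatPow (θ i))) (σ : ℕ) : Nonempty (SD4 κ θ σ) := by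
  obtain ⟨g, τ, ty, cl, e, h1, h2, h3⟩ := generators4 hκ θ (σ + 1) (fun i _ => hθ i)
  have hg : 1 ≤ g := by have := (h3 0 (by omega)).1; omega
  have hQ1 : 1 ≤ ∏ i ∈ Finset.range (σ + 1), e i :=
    Nat.one_le_iff_ne_zero.2 (Finset.prod_ne_zero_iff.2 fun i hi => by
      have := (h3 i (Finset.mem_range.1 hi)).2.1
      omega)
  have hQ2 : 1 ≤ ∏ h ∈ Finset.range g, max 1 (ty h).1 :=
    Nat.one_le_iff_ne_zero.2 (Finset.prod_ne_zero_iff.2 fun i hi => by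
      have := le_max_left 1 (ty i).1
      omega)
  obtain ⟨Q, hQ⟩ : ∃ Q, Q = (∏ i ∈ Finset.range (σ + 1), e i) * ∏ h ∈ Finset.range g, max 1 (ty h).1 := ⟨_, rfl⟩
  have hQp : 1 ≤ Q := by rw [hQ]; exact Nat.mul_pos hQ1 hQ2
  have hQr : ∀ h < g, (ty h).1 ≠ 0 → (ty h).1 ∣ Q := by
    intro h hh h0
    rw [hQ]
    refine Dvd.dvd.mul_left ?_ _
    have h4 : max 1 (ty h).1 ∣ ∏ h ∈ Finset.range g, max 1 (ty h).1 :=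
      Finset.dvd_prod_of_mem (fun h => max 1 (ty h).1) (Finset.mem_range.2 hh)
    rwa [max_eq_right (by omega : 1 ≤ (ty h).1)] at h4
  obtain ⟨R, CF, DF, Cb, m, Cq, G, H⟩ := exists_cst4 hg hQp h1 hQr
  exact ⟨⟨g, τ, ty, cl, e, Q, R, CF, DF, Cb, m, Cq, G, H, ev_big4 hκ H (good_exponent4 hκ h1 h2 hQp), fun i hi => (h3 i (by omega)).1,
    fun i hi => (h3 i (by omega)).2.1, fun i hi => by
      rw [hQ]
      exact Dvd.dvd.mul_right (Finset.dvd_prod_of_mem e (Finset.mem_range.2 (by omega))) _,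
    fun i hi => (h3 i (by omega)).2.2⟩⟩

/-! ## Phases -/

/-- the boundaries of the phases -/
def kp (σ : ℕ) : ℕ := 2 ^ σ - 1

theorem kp_zero : kp 0 = 0 := rfl

theorem kp_strict : StrictMono kp := by
  refine strictMono_nat_of_lt_succ fun σ => ?_
  unfold kp
  have h1 : 1 ≤ 2 ^ σ := Nat.one_le_two_pow
  rw [pow_succ]
  omega

theorem Kk_phase (K₀ : ℕ) {σ k : ℕ} (h1 : kp σ ≤ k) (h2 : k < kp (σ + 1)) : Kk K₀ k = K₀ + σ := by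
  unfold Kk
  unfold kp at h1 h2
  have h3 : 1 ≤ 2 ^ σ := Nat.one_le_two_pow
  congr 1
  rw [Nat.log_eq_iff (Or.inr ⟨by norm_num, by omega⟩)]
  constructor
  · omega
  · omega

theorem exists_phase (k : ℕ) : ∃ σ, kp σ ≤ k ∧ k < kp (σ + 1) := by
  have h1 : ∃ σ, k < kp (σ + 1) := ⟨k, lt_of_lt_of_le (Nat.lt_succ_self k) (kp_strict.id_le (k + 1))⟩
  classical
  refine ⟨Nat.find h1, ?_, Nat.find_spec h1⟩
  rcases Nat.eq_zero_or_pos (Nat.find h1) with h2 | h2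
  · rw [h2, kp_zero]; exact Nat.zero_le _
  · have h3 := Nat.find_min h1 (m := Nat.find h1 - 1) (by omega)
    rw [Nat.sub_add_cancel h2] at h3
    exact not_lt.1 h3

theorem phase_len {σ k : ℕ} (h2 : k ≤ kp (σ + 1)) : k - kp σ ≤ 2 ^ σ := by
  unfold kp at *
  have h3 : 1 ≤ 2 ^ σ := Nat.one_le_two_pow
  rw [pow_succ] at h2
  omega

theorem ll_phase {κ K₀ : ℕ} (ℓ₀ : ℝ) {σ k : ℕ} (h1 : kp σ ≤ k) (h2 : k < kp (σ + 1)) :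
    ll κ K₀ ℓ₀ (k + 1) = ll κ K₀ ℓ₀ k / 2 ^ ((K₀ + σ) ^ (2 * κ + 1)) := by
  rw [ll_succ, Kk_phase K₀ h1 h2]

/-- the number of steps of one class inside a phase -/
theorem tm_phase {κ : ℕ} {τ : ℕ → ℝ} {g Q R CF DF Cb G : ℕ} (H : Cst τ g Q R CF DF Cb G) {ℓ₀ : ℝ} (hℓ₀ : 0 < ℓ₀) (K₀ : ℕ) {s : ℕ} (hs : s < g * Q)
    {σ k : ℕ} (h1 : kp σ ≤ k) (h2 : k ≤ kp (σ + 1)) :
    tm τ Q s (ll κ K₀ ℓ₀ k) - tm τ Q s (ll κ K₀ ℓ₀ (kp σ)) ≤ 2 ^ (K₀ + σ + 1) * (G * (K₀ + σ) ^ (2 * κ + 1)) := by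
  have key : ∀ d, kp σ + d ≤ kp (σ + 1) → tm τ Q s (ll κ K₀ ℓ₀ (kp σ + d)) ≤ tm τ Q s (ll κ K₀ ℓ₀ (kp σ)) + d * (CF * (K₀ + σ) ^ (2 * κ + 1)) := by
    intro d
    induction d with
    | zero => intro _; simp
    | succ d ih =>
      intro hd
      have h3 := tm_block_le H.hQ (H.lt hs) (H.hCF _ (Pool.Agent.Helper41.LD3.Cst.idx_lt hs)) (ll_pos (κ := κ) hℓ₀ K₀ (kp σ + d)) ((K₀ + σ) ^ (2 * κ + 1))
      rw [← ll_phase ℓ₀ (Nat.le_add_right _ _) (by omega)] at h3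
      have h4 := ih (by omega)
      have h5 : (d + 1) * (CF * (K₀ + σ) ^ (2 * κ + 1)) = d * (CF * (K₀ + σ) ^ (2 * κ + 1)) + CF * (K₀ + σ) ^ (2 * κ + 1) := by ring
      rw [h5, ← add_assoc (kp σ)]
      omega
  obtain ⟨d, rfl⟩ := Nat.exists_eq_add_of_le h1
  have h3 := key d h2
  have h4 : d ≤ 2 ^ (K₀ + σ + 1) := by
    have h5 := phase_len h2
    rw [Nat.add_sub_cancel_left] at h5
    exact h5.trans (Nat.pow_le_pow_right (by norm_num) (by omega))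
  have h5 : CF * (K₀ + σ) ^ (2 * κ + 1) ≤ G * (K₀ + σ) ^ (2 * κ + 1) := Nat.mul_le_mul_right _ H.G_ge.2.1
  have h6 := Nat.mul_le_mul h4 h5
  omega

/-- the number of exponents of one generator inside a phase -/
theorem nu_phase {κ : ℕ} {τ : ℕ → ℝ} {g Q R CF DF Cb G : ℕ} (H : Cst τ g Q R CF DF Cb G) {ℓ₀ : ℝ} (hℓ₀ : 0 < ℓ₀) (K₀ : ℕ) {h : ℕ} (hh : h < g)
    {σ k : ℕ} (h1 : kp σ ≤ k) (h2 : k ≤ kp (σ + 1)) :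
    sInf {n : ℕ | 1 ≤ τ h ^ n * ll κ K₀ ℓ₀ k} ≤ sInf {n : ℕ | 1 ≤ τ h ^ n * ll κ K₀ ℓ₀ (kp σ)} + 2 ^ (K₀ + σ + 1) * (Q * G * (K₀ + σ) ^ (2 * κ + 1)) := by
  have hτ := H.hτ h hh
  have hex : ∀ j, {n : ℕ | 1 ≤ τ h ^ n * ll κ K₀ ℓ₀ j}.Nonempty := fun j =>
    Pool.Agent.Helper41.LD3.nu_nonempty (κ := κ) hℓ₀ hτ K₀ j
  have key : ∀ d, kp σ + d ≤ kp (σ + 1) → sInf {n : ℕ | 1 ≤ τ h ^ n * ll κ K₀ ℓ₀ (kp σ + d)} ≤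
      sInf {n : ℕ | 1 ≤ τ h ^ n * ll κ K₀ ℓ₀ (kp σ)} + d * (Q * CF * (K₀ + σ) ^ (2 * κ + 1)) := by
    intro d
    induction d with
    | zero => intro _; simp
    | succ d ih =>
      intro hd
      have h4 := ih (by omega)
      have h5 : (d + 1) * (Q * CF * (K₀ + σ) ^ (2 * κ + 1)) = d * (Q * CF * (K₀ + σ) ^ (2 * κ + 1)) + Q * CF * (K₀ + σ) ^ (2 * κ + 1) := by ring
      rw [h5, ← add_assoc (kp σ)]
      refine le_trans (Nat.sInf_le ?_) (show sInf {n : ℕ | 1 ≤ τ h ^ n * ll κ K₀ ℓ₀ (kp σ + d)} + Q * CF * (K₀ + σ) ^ (2 * κ + 1) ≤ _ by omega)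
      show 1 ≤ τ h ^ (sInf {n : ℕ | 1 ≤ τ h ^ n * ll κ K₀ ℓ₀ (kp σ + d)} + Q * CF * (K₀ + σ) ^ (2 * κ + 1)) * ll κ K₀ ℓ₀ (kp σ + d + 1)
      rw [ll_phase ℓ₀ (Nat.le_add_right _ _) (by omega)]
      have h6 : 1 ≤ τ h ^ (sInf {n : ℕ | 1 ≤ τ h ^ n * ll κ K₀ ℓ₀ (kp σ + d)}) * ll κ K₀ ℓ₀ (kp σ + d) := Nat.sInf_mem (hex _)
      obtain ⟨Λ, hΛ⟩ : ∃ Λ, Λ = (K₀ + σ) ^ (2 * κ + 1) := ⟨_, rfl⟩
      rw [← hΛ]
      have h7 : (2 : ℝ) ^ Λ ≤ τ h ^ (Q * CF * Λ) := by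
        rw [pow_mul, pow_mul]
        exact pow_le_pow_left₀ (by norm_num) (H.hCF h hh) Λ
      have h8 : (0 : ℝ) < 2 ^ Λ := by positivity
      rw [pow_add]
      have h9 : τ h ^ (sInf {n : ℕ | 1 ≤ τ h ^ n * ll κ K₀ ℓ₀ (kp σ + d)}) * τ h ^ (Q * CF * Λ) * (ll κ K₀ ℓ₀ (kp σ + d) / 2 ^ Λ) =
          (τ h ^ (sInf {n : ℕ | 1 ≤ τ h ^ n * ll κ K₀ ℓ₀ (kp σ + d)}) * ll κ K₀ ℓ₀ (kp σ + d)) * (τ h ^ (Q * CF * Λ) / 2 ^ Λ) := by ring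
      rw [h9]
      exact one_le_mul_of_one_le_of_one_le h6 ((one_le_div h8).2 h7)
  obtain ⟨d, rfl⟩ := Nat.exists_eq_add_of_le h1
  have h3 := key d h2
  have h4 : d ≤ 2 ^ (K₀ + σ + 1) := by
    have h5 := phase_len h2
    rw [Nat.add_sub_cancel_left] at h5
    exact h5.trans (Nat.pow_le_pow_right (by norm_num) (by omega))
  have h5 : Q * CF * (K₀ + σ) ^ (2 * κ + 1) ≤ Q * G * (K₀ + σ) ^ (2 * κ + 1) := Nat.mul_le_mul_right _ (Nat.mul_le_mul_left _ H.G_ge.2.1)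
  have h6 := Nat.mul_le_mul h4 h5
  omega

/-- the family of the phase `σ` -/
def fam (thr : ℕ → ℕ) (K₀ σ : ℕ) : ℕ := Nat.findGreatest (fun j => thr j ≤ K₀ + σ) σ

theorem fam_spec {thr : ℕ → ℕ} {K₀ : ℕ} (h0 : thr 0 ≤ K₀) (σ : ℕ) : thr (fam thr K₀ σ) ≤ K₀ + σ :=
  Nat.findGreatest_spec (P := fun j => thr j ≤ K₀ + σ) (Nat.zero_le σ) (h0.trans (Nat.le_add_right _ _))

theorem le_fam {thr : ℕ → ℕ} {K₀ i σ : ℕ} (h1 : i ≤ σ) (h2 : thr i ≤ σ) : i ≤ fam thr K₀ σ :=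
  Nat.le_findGreatest h1 (h2.trans (Nat.le_add_left _ _))

section

variable {κ : ℕ} {θ : ℕ → ℝ}

/-- a good window of level `k` -/
def GoodM4 (D : ∀ σ, SD4 κ θ σ) (fm : ℕ → ℕ) (c : ℝ → ℝ) (K₀ : ℕ) (ℓ₀ : ℝ) (k : ℕ) (a : ℝ) : Prop :=
  ∀ σ, kp σ < k → k ≤ kp (σ + 1) →
    GoodF4 (D (fm σ)).τ (D (fm σ)).ty c (D (fm σ)).g (D (fm σ)).Q (D (fm σ)).R (D (fm σ)).G κ (ll κ K₀ ℓ₀ (kp σ)) (K₀ + σ) a (ll κ K₀ ℓ₀ k)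

theorem good_at4 {D : ∀ σ, SD4 κ θ σ} {fm : ℕ → ℕ} {c : ℝ → ℝ} {K₀ : ℕ} {ℓ₀ : ℝ} (hℓ₀ : 0 < ℓ₀)
    (hbig : ∀ σ, Big4 κ (D (fm σ)).τ (D (fm σ)).ty (D (fm σ)).g (D (fm σ)).Q (D (fm σ)).R (D (fm σ)).DF (D (fm σ)).Cb (D (fm σ)).m (D (fm σ)).Cq
      (D (fm σ)).G (K₀ + σ))
    {k : ℕ} {a : ℝ} (h : GoodM4 D fm c K₀ ℓ₀ k a) {σ : ℕ} (h1 : kp σ ≤ k) (h2 : k ≤ kp (σ + 1)) :
    GoodF4 (D (fm σ)).τ (D (fm σ)).ty c (D (fm σ)).g (D (fm σ)).Q (D (fm σ)).R (D (fm σ)).G κ (ll κ K₀ ℓ₀ (kp σ)) (K₀ + σ) a (ll κ K₀ ℓ₀ k) := by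
  rcases eq_or_lt_of_le h1 with h3 | h3
  · rw [← h3]
    exact stage_start4 (D (fm σ)).H (hbig σ) c (ll_pos hℓ₀ K₀ _)
  · exact h σ h3 h2

/-- one block -/
theorem good_stepM4 {D : ∀ σ, SD4 κ θ σ} {fm : ℕ → ℕ} {c : ℝ → ℝ} (hc : ∀ y, RatPow y → c y = 0) {K₀ : ℕ} {ℓ₀ : ℝ} (hℓ₀ : 0 < ℓ₀) (hℓ₀1 : ℓ₀ ≤ 1)
    (hbig : ∀ σ, Big4 κ (D (fm σ)).τ (D (fm σ)).ty (D (fm σ)).g (D (fm σ)).Q (D (fm σ)).R (D (fm σ)).DF (D (fm σ)).Cb (D (fm σ)).m (D (fm σ)).Cq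
      (D (fm σ)).G (K₀ + σ))
    (k : ℕ) (a : ℝ) (h : GoodM4 D fm c K₀ ℓ₀ k a) :
    (1 / 2 : ℝ) ^ (3 * Kk K₀ k) * ((2 ^ (Kk K₀ k ^ (2 * κ + 1)) : ℕ) : ℝ) ≤
      (by classical exact (((Finset.range (2 ^ (Kk K₀ k ^ (2 * κ + 1)))).filter fun b : ℕ =>
        GoodM4 D fm c K₀ ℓ₀ (k + 1) (a + b * ll κ K₀ ℓ₀ (k + 1))).card : ℝ)) := by
  classical
  obtain ⟨σ, hσ1, hσ2⟩ := exists_phase k
  have hℓk := ll_pos (κ := κ) hℓ₀ K₀ k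
  have h1 := good_at4 hℓ₀ hbig h hσ1 hσ2.le
  have hst : ll κ K₀ ℓ₀ (kp σ) ≤ 1 := by
    have h2 := ll_anti (κ := κ) hℓ₀ K₀ (Nat.zero_le (kp σ))
    have h3 : ll κ K₀ ℓ₀ 0 = ℓ₀ := by unfold ll; simp
    linarith
  have h2 := stage_step4 (D (fm σ)).H (hbig σ) hc hℓk (ll_anti hℓ₀ K₀ hσ1) hst
    (fun s hs => tm_phase (D (fm σ)).H.base hℓ₀ K₀ hs hσ1 hσ2.le) h1
  rw [Kk_phase K₀ hσ1 hσ2]
  refine h2.trans ?_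
  have h3 : ((Finset.range (2 ^ ((K₀ + σ) ^ (2 * κ + 1)))).filter fun b : ℕ =>
      GoodF4 (D (fm σ)).τ (D (fm σ)).ty c (D (fm σ)).g (D (fm σ)).Q (D (fm σ)).R (D (fm σ)).G κ (ll κ K₀ ℓ₀ (kp σ)) (K₀ + σ)
        (a + b * (ll κ K₀ ℓ₀ k / (2 ^ ((K₀ + σ) ^ (2 * κ + 1)) : ℕ))) (ll κ K₀ ℓ₀ k / (2 ^ ((K₀ + σ) ^ (2 * κ + 1)) : ℕ))) ⊆
      ((Finset.range (2 ^ ((K₀ + σ) ^ (2 * κ + 1)))).filter fun b : ℕ => GoodM4 D fm c K₀ ℓ₀ (k + 1) (a + b * ll κ K₀ ℓ₀ (k + 1))) := by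
    intro b hb
    rw [Finset.mem_filter] at hb ⊢
    refine ⟨hb.1, fun σ' e1 e2 => ?_⟩
    have e3 : σ' = σ := by
      rcases lt_trichotomy σ' σ with e | e | e
      · have := kp_strict.monotone (show σ' + 1 ≤ σ by omega)
        omega
      · exact e
      · have := kp_strict.monotone (show σ + 1 ≤ σ' by omega)
        omega
    subst e3
    have e4 : ll κ K₀ ℓ₀ (k + 1) = ll κ K₀ ℓ₀ k / (2 ^ ((K₀ + σ') ^ (2 * κ + 1)) : ℕ) := by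
      rw [ll_phase ℓ₀ hσ1 hσ2]
      push_cast
      rfl
    rw [e4]
    exact hb.2
  have h4 := Finset.card_le_card h3
  convert (Nat.cast_le (α := ℝ)).2 h4 using 2

/-- the constant of a family -/
def cG {σ : ℕ} (D : SD4 κ θ σ) : ℕ := 1400000 * D.m ^ 3 * D.Q * D.G

/-- the discrepancy over one phase, for one base -/
theorem stage_sum4 (D : ∀ σ, SD4 κ θ σ) {fm : ℕ → ℕ} {c : ℝ → ℝ} (hc : ∀ y, RatPow y → c y = 0) {K₀ : ℕ} {ℓ₀ : ℝ} (hℓ₀ : 0 < ℓ₀)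
    (hbig : ∀ σ, Big4 κ (D (fm σ)).τ (D (fm σ)).ty (D (fm σ)).g (D (fm σ)).Q (D (fm σ)).R (D (fm σ)).DF (D (fm σ)).Cb (D (fm σ)).m (D (fm σ)).Cq
      (D (fm σ)).G (K₀ + σ))
    {x : ℝ} (hx : ∀ k, ∃ a, GoodM4 D fm c K₀ ℓ₀ k a ∧ x ∈ Icc a (a + ll κ K₀ ℓ₀ k))
    {i σ : ℕ} (hi : i ≤ fm σ) {k : ℕ} (h1 : kp σ ≤ k) (h2 : k ≤ kp (σ + 1)) {α γ : ℝ} (hα : 0 ≤ α) (hαγ : α ≤ γ) (hγ : γ ≤ 1) :
    |(((Finset.Ico (nu κ K₀ ℓ₀ (θ i) (kp σ)) (nu κ K₀ ℓ₀ (θ i) k)).filter fun n : ℕ =>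
        α ≤ Int.fract (x * θ i ^ n + c (θ i ^ n)) ∧ Int.fract (x * θ i ^ n + c (θ i ^ n)) < γ).card : ℝ) -
      ((nu κ K₀ ℓ₀ (θ i) k : ℝ) - nu κ K₀ ℓ₀ (θ i) (kp σ)) * (γ - α)| ≤
      (cG (D (fm σ)) : ℕ) * ((K₀ + σ : ℕ) : ℝ) ^ (2 * κ + 4) := by
  obtain ⟨a, hg, hxa⟩ := hx k
  have hgood := good_at4 hℓ₀ hbig hg h1 h2
  have hH := (D (fm σ)).H
  have hθi := (D (fm σ)).hθ i hi
  have hcl := (D (fm σ)).hcl i hi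
  have h3 := stage_class4 hH (hbig σ) hc (ll_pos hℓ₀ K₀ k) (ll_anti (κ := κ) hℓ₀ K₀ h1)
    (fun s hs => tm_phase hH.base hℓ₀ K₀ hs h1 h2) hgood hxa hcl ((D (fm σ)).he i hi) ((D (fm σ)).heQ i hi)
    (nu_phase hH.base hℓ₀ K₀ hcl h1 h2) hα hαγ hγ
  unfold nu
  rw [hθi]
  exact h3

end

/-- **nearly optimal discrepancy for all the bases at once** -/
theorem main4_ge {κ : ℕ} (hκ : 1 ≤ κ) {θ : ℕ → ℝ} (hθ : ∀ i, 1 < θ i ∧ (Dioph (θ i) κ ∨ RatPow (θ i))) {c : ℝ → ℝ}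
    (hc : ∀ y, RatPow y → c y = 0) {O : Set ℝ} (hO : IsOpen O) (hne : O.Nonempty) {s : ℝ} (hs : 0 < s) (hs1 : s < 1) :
    ENNReal.ofReal s ≤ dimH {ξ | ξ ∈ O ∧ ∀ i, ∃ N₀ : ℕ, ∀ N ≥ N₀, DiscLe (fun n => ξ * θ i ^ n + c (θ i ^ n)) N (Real.log N ^ (2 * κ + 6))} := by
  classical
  -- the starting window
  obtain ⟨x₀, hx₀⟩ := hne
  obtain ⟨ρ, hρ, hball⟩ := Metric.isOpen_iff.1 hO x₀ hx₀
  obtain ⟨ℓ₀, hℓ₀⟩ : ∃ ℓ₀ : ℝ, ℓ₀ = min 1 (ρ / 2) := ⟨_, rfl⟩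
  have hℓ₀pos : 0 < ℓ₀ := by rw [hℓ₀]; positivity
  have hℓ₀1 : ℓ₀ ≤ 1 := by rw [hℓ₀]; exact min_le_left _ _
  have hℓ₀ρ : ℓ₀ ≤ ρ / 2 := by rw [hℓ₀]; exact min_le_right _ _
  have hsub : Icc x₀ (x₀ + ℓ₀) ⊆ O := by
    intro x hx
    refine hball ?_
    rw [Metric.mem_ball, Real.dist_eq, abs_of_nonneg (by linarith [hx.1])]
    linarith [hx.2]
  -- the phases
  have hSD := exists_SD4 hκ hθ
  let D : ∀ σ, SD4 κ θ σ := fun σ => (hSD σ).some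
  have hthr : ∀ σ, ∃ t : ℕ, ∀ K ≥ t, Big4 κ (D σ).τ (D σ).ty (D σ).g (D σ).Q (D σ).R (D σ).DF (D σ).Cb (D σ).m (D σ).Cq (D σ).G K ∧
      cG (D σ) ^ 2 ≤ K := fun σ =>
    eventually_atTop.1 ((D σ).big.and (eventually_ge_atTop _))
  choose thr hthr using hthr
  obtain ⟨K₀, hK₀⟩ : ∃ K₀, K₀ = max (thr 0) 1 := ⟨_, rfl⟩
  have hK₀1 : 1 ≤ K₀ := by rw [hK₀]; exact le_max_right _ _
  have hK₀0 : thr 0 ≤ K₀ := by rw [hK₀]; exact le_max_left _ _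
  have hbig : ∀ σ, Big4 κ (D (fam thr K₀ σ)).τ (D (fam thr K₀ σ)).ty (D (fam thr K₀ σ)).g (D (fam thr K₀ σ)).Q (D (fam thr K₀ σ)).R
      (D (fam thr K₀ σ)).DF (D (fam thr K₀ σ)).Cb (D (fam thr K₀ σ)).m (D (fam thr K₀ σ)).Cq (D (fam thr K₀ σ)).G (K₀ + σ) :=
    fun σ => (hthr _ _ (fam_spec hK₀0 σ)).1
  have hll0 : ll κ K₀ ℓ₀ 0 = ℓ₀ := by unfold ll; simp
  have hdim := dim_homog (fun k => 2 ^ (Kk K₀ k ^ (2 * κ + 1))) (ll κ K₀ ℓ₀) (fun k => (1 / 2 : ℝ) ^ (3 * Kk K₀ k)) (GoodM4 D (fam thr K₀) c K₀ ℓ₀) x₀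
    (fun k => Nat.one_le_two_pow) (ll_pos hℓ₀pos K₀ 0) (fun k => by rw [ll_succ]; push_cast; rfl) (ll_tendsto hℓ₀pos hK₀1)
    (fun k => by positivity) (fun k => pow_le_one₀ (by norm_num) (by norm_num)) (fun σ h _ => absurd h (Nat.not_lt_zero _))
    (fun k a hg => by
      have := good_stepM4 hc hℓ₀pos hℓ₀1 hbig k a hg
      convert this using 3) hs hs1 (mass_bound3 hκ hℓ₀pos K₀ hs hs1)
  refine hdim.trans (dimH_mono ?_)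
  rintro x ⟨hx0, hx⟩
  rw [hll0] at hx0
  refine ⟨hsub hx0, fun i => ?_⟩
  obtain ⟨C₁, hC₁⟩ := nu_succ (κ := κ) hℓ₀pos (hθ i).1 K₀
  obtain ⟨C₂, hC₂⟩ := nu_ge (κ := κ) hℓ₀pos hℓ₀1 (hθ i).1 hK₀1
  have hKp : ∀ σ, Kk K₀ (kp σ) = K₀ + σ := fun σ => Kk_phase K₀ le_rfl (kp_strict (Nat.lt_succ_self σ))
  refine asm4 (t := fun n => x * θ i ^ n + c (θ i ^ n)) (κ := κ) hK₀1 (nu_mono hℓ₀pos (hθ i).1 K₀) hC₁ hC₂ kp_strict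
    (fun σ => by rw [hKp]; exact Nat.le_add_left _ _)
    (G := fun σ => cG (D (fam thr K₀ σ))) (i := max i (thr i)) (fun σ _ => by rw [hKp]; exact (hthr _ _ (fam_spec hK₀0 σ)).2) ?_
  intro σ hσ k h1 h2 α γ hα hαγ hγ
  rw [hKp]
  exact stage_sum4 D hc hℓ₀pos hbig hx (le_fam ((le_max_left _ _).trans hσ) ((le_max_right _ _).trans hσ)) h1 h2 hα hαγ hγ

/-- **nearly optimal discrepancy for all the bases at once** -/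
theorem main4' {κ : ℕ} (hκ : 1 ≤ κ) (θ : ℕ → ℝ) (hθ : ∀ i, 1 < θ i ∧ (Dioph (θ i) κ ∨ RatPow (θ i))) (c : ℝ → ℝ)
    (hc : ∀ y, RatPow y → c y = 0) {O : Set ℝ} (hO : IsOpen O) (hne : O.Nonempty) :
    dimH {ξ | ξ ∈ O ∧ ∀ i, ∃ N₀ : ℕ, ∀ N ≥ N₀, DiscLe (fun n => ξ * θ i ^ n + c (θ i ^ n)) N (Real.log N ^ (2 * κ + 6))} = 1 := by
  refine le_antisymm (dimH_le_one _) ?_
  have h1 : Tendsto (fun m : ℕ => ENNReal.ofReal (1 - 1 / ((m : ℝ) + 2))) atTop (𝓝 1) := by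
    have h2 : Tendsto (fun m : ℕ => 1 - 1 / ((m : ℝ) + 2)) atTop (𝓝 (1 - 0)) := by
      refine Tendsto.sub tendsto_const_nhds ?_
      have h3 : Tendsto (fun m : ℕ => (m : ℝ) + 2) atTop atTop :=
        tendsto_natCast_atTop_atTop.atTop_add tendsto_const_nhds
      have h5 := tendsto_inv_atTop_zero.comp h3
      refine h5.congr fun m => ?_
      rw [Function.comp_apply, one_div]
    rw [sub_zero] at h2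
    have h4 := (ENNReal.continuous_ofReal.tendsto 1).comp h2
    rwa [ENNReal.ofReal_one] at h4
  refine le_of_tendsto h1 (Eventually.of_forall fun m => ?_)
  refine main4_ge hκ hθ hc hO hne ?_ ?_
  · have : (1 : ℝ) / ((m : ℝ) + 2) < 1 := by
      rw [div_lt_one (by positivity)]
      have : (0 : ℝ) ≤ m := Nat.cast_nonneg m
      linarith
    linarith
  · have : (0 : ℝ) < 1 / ((m : ℝ) + 2) := by positivity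
    linarith

end Pool.Agent.Helper41.LD4
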